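import Pool.Agent.helper37.F2.Spec2

/-!
# PL: the lower bound
-/

set_option autoImplicit false

open scoped BigOperators

namespace Pool.Agent.F2T

open Pool.Agent.helper23.TH Pool.Agent.F2

theorem PL_symm {V K : Type} {χ : V → V → K} (h : ∀ a b, χ a b = χ b a) (u w : V × V)
    (hg : Ga χ u w) : Ga χ w u := by
  obtain ⟨h1, h2, h3, h4, h5, h6, h7⟩ := hg
  exact ⟨h2, h1, h3.symm, h5.symm, h4.symm, h6.symm, by rw [h w.1 u.1, h w.2 u.2, h7]⟩

open Classical in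
theorem PL_dg {V : Type} [Fintype V] (P : V → Prop) [Fintype {u : V // P u}] (A : V → V → Prop)
    (hA : ∀ u w, A u w → P u ∧ P w) :
    ∑ v, (dg A Finset.univ v : ℝ) =
      ∑ v : {u : V // P u}, (dg (fun u w : {u : V // P u} => A u.1 w.1) Finset.univ v : ℝ) := by
  have h1 : ∀ v : {u : V // P u},
      dg (fun u w : {u : V // P u} => A u.1 w.1) Finset.univ v = dg A Finset.univ v.1 := by
    intro v
    unfold dg
    rw [← Finset.card_map (Function.Embedding.subtype _)]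
    congr 1
    ext x
    simp only [Finset.mem_map, Finset.mem_filter, Finset.mem_univ, true_and,
      Function.Embedding.subtype_apply, Subtype.exists, exists_and_left, exists_prop,
      exists_eq_right_right]
    constructor
    · rintro ⟨h1, h2⟩
      exact h1
    · intro h
      exact ⟨h, (hA _ _ h).2⟩
  simp only [h1]
  have h2 : ∑ v ∈ Finset.univ.filter P, (dg A Finset.univ v : ℝ) = ∑ v, (dg A Finset.univ v : ℝ) := by
    refine Finset.sum_filter_of_ne ?_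
    intro v _ hv
    by_contra hP
    apply hv
    have : dg A Finset.univ v = 0 := by
      unfold dg
      rw [Finset.card_eq_zero, Finset.filter_eq_empty_iff]
      intro w _ hw
      exact hP (hA v w hw).1
    rw [this]
    norm_num
  rw [← h2]
  exact Finset.sum_subtype _ (by simp) (fun v => (dg A Finset.univ v : ℝ))

/-- the numerical part -/
theorem PL_num {n m : ℕ} {a K c : ℝ} (ha : 0 < a) (ha1 : a < 1) (hK : 0 < K) (hn : 2 ≤ n) (hm : 0 < m)
    (hc1 : c ≤ 1 / 8) (hc2 : c * (16 * K) ≤ 1) (h : (m : ℝ) < c * (n : ℝ) ^ (2 - 2 * a)) :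
    4 * (m : ℝ) ≤ n * (n - 1) ∧ ∀ N : ℝ, 0 < N → N ≤ (n : ℝ) ^ 2 →
      2 * (K * N ^ (1 + a)) ≤ (n : ℝ) ^ 4 / (8 * m) := by
  have hn' : (2 : ℝ) ≤ n := by exact_mod_cast hn
  have hn0 : (0 : ℝ) < n := by linarith
  have hm' : (0 : ℝ) < m := by exact_mod_cast hm
  have hp0 : 0 < (n : ℝ) ^ (2 - 2 * a) := Real.rpow_pos_of_pos hn0 _
  have hle : (n : ℝ) ^ (2 - 2 * a) ≤ (n : ℝ) ^ (2 : ℝ) :=
    Real.rpow_le_rpow_of_exponent_le (by linarith) (by linarith)
  have h2 : (n : ℝ) ^ (2 : ℝ) = (n : ℝ) ^ 2 := by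
    rw [show (2 : ℝ) = ((2 : ℕ) : ℝ) by norm_num, Real.rpow_natCast]
  constructor
  · have h3 : (m : ℝ) ≤ 1 / 8 * (n : ℝ) ^ 2 := by
      calc (m : ℝ) ≤ c * (n : ℝ) ^ (2 - 2 * a) := h.le
        _ ≤ 1 / 8 * (n : ℝ) ^ (2 - 2 * a) := by gcongr
        _ ≤ 1 / 8 * (n : ℝ) ^ 2 := by rw [← h2]; gcongr
    nlinarith
  · intro N hN hN2
    rw [le_div_iff₀ (by positivity)]
    have e0 : N ^ (1 + a) ≤ ((n : ℝ) ^ 2) ^ (1 + a) := Real.rpow_le_rpow hN.le hN2 (by linarith)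
    have e1 : ((n : ℝ) ^ 2) ^ (1 + a) = (n : ℝ) ^ (2 + 2 * a) := by
      rw [← Real.rpow_natCast (n : ℝ) 2, ← Real.rpow_mul hn0.le]
      congr 1
      push_cast
      ring
    have e2 : (n : ℝ) ^ (2 + 2 * a) * (n : ℝ) ^ (2 - 2 * a) = (n : ℝ) ^ 4 := by
      rw [← Real.rpow_add hn0, ← Real.rpow_natCast (n : ℝ) 4]
      congr 1
      push_cast
      ring
    have hq0 : 0 < (n : ℝ) ^ (2 + 2 * a) := Real.rpow_pos_of_pos hn0 _
    calc 2 * (K * N ^ (1 + a)) * (8 * m)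
        ≤ 2 * (K * (n : ℝ) ^ (2 + 2 * a)) * (8 * (c * (n : ℝ) ^ (2 - 2 * a))) := by
          rw [← e1]
          gcongr
      _ = c * (16 * K) * ((n : ℝ) ^ (2 + 2 * a) * (n : ℝ) ^ (2 - 2 * a)) := by ring
      _ = c * (16 * K) * (n : ℝ) ^ 4 := by rw [e2]
      _ ≤ 1 * (n : ℝ) ^ 4 := by gcongr
      _ = (n : ℝ) ^ 4 := one_mul _

theorem PL (hEC : EC_stmt) (hPB : PB_stmt) (hPG : PG_stmt) : PL_stmt := by
  classical
  intro H a ha ha1 hST
  obtain ⟨K, hK, hG⟩ := hST 3 2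
  refine ⟨min (1 / 8) (1 / (16 * K)), by positivity, 2, ?_⟩
  intro n hn m χ hχ hT
  by_contra hcon
  rw [not_le] at hcon
  have hm : 0 < m := by
    have : Fin n := ⟨0, by omega⟩
    exact (χ this this).pos
  obtain ⟨h4, hnum⟩ := PL_num ha ha1 hK hn hm (min_le_left _ _)
    (by
      calc min (1 / 8) (1 / (16 * K)) * (16 * K) ≤ 1 / (16 * K) * (16 * K) := by
            gcongr; exact min_le_right _ _
        _ = 1 := by field_simp) hcon
  have hE := hEC.1 n m χ hχ hn h4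
  rw [PL_dg (fun u : Fin n × Fin n => u.1 ≠ u.2) (Ga χ) (fun u w h => ⟨h.1, h.2.1⟩)] at hE
  obtain ⟨c, hc⟩ := hPB {u : Fin n × Fin n // u.1 ≠ u.2} (fun u w => Ga χ u.1 w.1)
    (fun u w h => PL_symm hχ.symm _ _ h) (fun v h => h.2.2.1 rfl)
  obtain ⟨G, hGA, hGC⟩ := hPG (Fin n) (Fin m) χ hχ c
  have hGA' : G.A = fun u w => Ga χ u.1 w.1 ∧ c u ≠ c w := by
    funext u w
    exact propext (hGA u w)
  have hc' : (∑ v, (dg (fun u w : {u : Fin n × Fin n // u.1 ≠ u.2} => Ga χ u.1 w.1)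
      Finset.univ v : ℝ)) ≤ 2 * ∑ v, (dg G.A Finset.univ v : ℝ) := by
    rw [hGA']
    exact_mod_cast hc
  have hcpos : 0 < Fintype.card {u : Fin n × Fin n // u.1 ≠ u.2} := by
    refine Fintype.card_pos_iff.2 ⟨⟨(⟨0, by omega⟩, ⟨1, by omega⟩), ?_⟩⟩
    simp
  have hcle : (Fintype.card {u : Fin n × Fin n // u.1 ≠ u.2} : ℝ) ≤ (n : ℝ) ^ 2 := by
    have h1 := Fintype.card_subtype_le (fun u : Fin n × Fin n => u.1 ≠ u.2)
    rw [Fintype.card_prod, Fintype.card_fin] at h1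
    have h2 : (Fintype.card {u : Fin n × Fin n // u.1 ≠ u.2} : ℝ) ≤ ((n * n : ℕ) : ℝ) := by
      exact_mod_cast h1
    rw [Nat.cast_mul] at h2
    rw [pow_two]
    exact h2
  have hfin := hnum _ (by exact_mod_cast hcpos) hcle
  exact hT (hGC H (hG _ _ G hcpos (by linarith)))

end Pool.Agent.F2T
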